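import Pool.Agent.MP_61ef33_al.Mis.All

namespace Pool.Agent.Results.MP_61ef33_al.A_Primitive

open Polynomial Pool.Agent.MP_61ef33_al

theorem result (c : ℂ) (hfin : (postcrit (X ^ 2 + C c)).Finite)
    (h0 : (0 : ℂ) ∉ postcrit (X ^ 2 + C c)) (hc : c ≠ -2) (hr : ¬ Meeting c)
    (t : ℂ) (ht : t ∉ postcrit (X ^ 2 + C c)) :
    IntermediateGrowth (IMG (X ^ 2 + C c) t) :=
  Mis.cplx_all c hfin h0 hc hr t ht

end Pool.Agent.Results.MP_61ef33_al.A_Primitive
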