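import Pool.Agent.MP_61ef33_al.Mis.All

namespace Pool.Agent.Results.MP_61ef33_al.B_Real

open Polynomial Pool.Agent.MP_61ef33_al

theorem result (c : ℝ) (hfin : (postcrit (X ^ 2 + C (c : ℂ))).Finite) (h0 : c ≠ 0) (hc : c ≠ -2)
    (t : ℂ) (ht : t ∉ postcrit (X ^ 2 + C (c : ℂ))) :
    IntermediateGrowth (IMG (X ^ 2 + C (c : ℂ)) t) ↔ ¬ Doubled c :=
  Mis.real_all c hfin h0 hc t ht

end Pool.Agent.Results.MP_61ef33_al.B_Real
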