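import Pool.Agent.MP_61ef33_al.Mis.All3

namespace Pool.Agent.Results.MP_61ef33_al.D_Kneading

open Pool.Agent.MP_61ef33_al

theorem result (v : List Bool) (hv : v ≠ []) : IntermediateGrowth (KGroup v) ↔ ¬ Satellite v :=
  (Mis.kn_all v hv).1

end Pool.Agent.Results.MP_61ef33_al.D_Kneading
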